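import Pool.Agent.R205.PC.Z10

/-!
# Unrestricted box averages in almost every group extension of an arbitrary system

`(Y, μ, S)` is an arbitrary invertible measure preserving system on a standard Borel probability space,
not necessarily ergodic, without periodic points (up to a null set). `K` is a group with measurable
multiplication and inversion and a probability measure `ρ` invariant under all left and right translations (for
example any compact second countable group, commutative or not, with its Haar measure).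

For a measurable `c : Y → K` let `T_0 (y, x) = (S y, c y * x)` be the skew product on `Y × K`, and for
`κ_1, …, κ_d ∈ K` let `T_i (y, x) = (y, x * κ_i)`: these maps commute with `T_0` and preserve `μ × ρ`. The group
generated by `T_0, …, T_d` is nilpotent when the `κ_i` generate a nilpotent group (of any step); the theorem does not
need this.

The theorem: there is a measurable `ξ : Y → ℕ`, that is, a countable measurable partition of `Y`, such that for
EVERY such `K` and EVERY cocycle `φ : Y → K` the cocycles `c(y) = φ(y) θ(ξ(y))`, with independent `ρ`-distributed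
constants `θ(i)` on the pieces `ξ = i`, have the following property.

Let `P_ij ∈ ℤ[m_1, …, m_k]`, `0 ≤ i ≤ d`, `1 ≤ j ≤ n`, be such that the exponents `P_0j` of `T_0` and their
differences `P_0i - P_0j`, `i ≠ j`, are not constant (no condition on the other `P_ij`), let `S_j(m)` be
`T_0^(P_0j(m)) ⋯ T_d^(P_dj(m))` and let `f_1, …, f_n` be bounded and measurable on `Y × K`. For almost every `θ` and
almost every `z = (y, x)` the averages of
`∏_j f_j (S_j(m) z) - ∏_j E(f_j | Y) (S^(P_0j(m)) y)` over the boxes `[M_1] × ⋯ × [M_k]` tend to zero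

1. as `min M_l → ∞` with no restriction on the shape of the boxes, if all the variables occur in all the `P_0j` and
   `P_0i - P_0j`, `i ≠ j`: for instance for linear forms with nonzero coefficients which are different for different `j`;
2. in general, as `min M_l → ∞` and the boxes are admissible for some fixed exponent `A`: each `M_l` is at most
   `(M_l')^A` for some variable `l'` of each of the polynomials `P_0j`, `P_0i - P_0j` (in particular for the diagonal
   limit `M_1 = ⋯ = M_k`, and as long as `max M_l ≤ (min M_l)^A`). In case 1 all boxes are admissible.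

So the base is characteristic for almost every cocycle, and the multiple averages converge at almost every point `z`
for which the averages of the fibre means `E(f_j | Y)` converge at `y`. The same is true for arbitrary uniformly
bounded families of functions `F_j(m, ·)` in place of the `f_j`.

Proof. There are nested marker sets with bounded gaps and labels which do not repeat along long pieces of orbits,
so that at all scales every window of the orbit of length about `N^(1/2)` contains a time whose label `ξ` does not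
occur elsewhere in the range `|t| ≤ N^D` (`Pool.Agent.R205.PC.exists_labels`, `Fresh2`). For every single point
`(y, x)`, integrating over the constant with this label shows that, after subtracting the fibre means, the terms for
`m` and `m'` are orthogonal with respect to `θ` as soon as the times `0`, `P_0j(m)`, `P_0j(m')` are separated by the
window length. The number of the other pairs is estimated by counting roots on the lines parallel to the axis with the
longest side, away from a set of density zero (Schwartz-Zippel). A second moment argument along the boxes with sides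
`r_l^q` and Fubini's theorem finish the proof.
-/

set_option autoImplicit false

open MeasureTheory Filter Topology

namespace Pool.Agent.Results.MP_f720ae_an.AlmostEveryCocycle

universe u v

/-- the skew product `(y, x) ↦ (S y, c y * x)` as a permutation of `Y × K` -/
def skew {Y : Type u} {K : Type v} [Group K] (S : Equiv.Perm Y) (c : Y → K) : Equiv.Perm (Y × K) where
  toFun z := (S z.1, c z.1 * z.2)
  invFun z := (S.symm z.1, (c (S.symm z.1))⁻¹ * z.2)
  left_inv z := by simp
  right_inv z := by simp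

/-- the right translation `(y, x) ↦ (y, x * κ)` of the fibres -/
def trans {Y : Type u} {K : Type v} [Group K] (κ : K) : Equiv.Perm (Y × K) where
  toFun z := (z.1, z.2 * κ)
  invFun z := (z.1, z.2 * κ⁻¹)
  left_inv z := by simp
  right_inv z := by simp

/-- the maps `T_0 = skew S c` and `T_i = trans (κ_i)`, `1 ≤ i ≤ d` -/
def maps {Y : Type u} {K : Type v} [Group K] (S : Equiv.Perm Y) (c : Y → K) {d : ℕ} (κ : Fin d → K) :
    Fin (d + 1) → Equiv.Perm (Y × K) :=
  Fin.cons (skew S c) fun i => trans (κ i)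

/-- the averages over the box `[1, M_1] × ⋯ × [1, M_k]` -/
noncomputable def avg {k : ℕ} (u : (Fin k → ℕ) → ℂ) (M : Fin k → ℕ) : ℂ :=
  (∏ l, (M l : ℂ))⁻¹ * ∑ m ∈ Fintype.piFinset (fun l => Finset.Icc 1 (M l)), u m

/-- value of a polynomial at `m ∈ ℕ^k` -/
noncomputable def ev {k : ℕ} (P : MvPolynomial (Fin k) ℤ) (m : Fin k → ℕ) : ℤ :=
  MvPolynomial.eval (fun l => ((m l : ℕ) : ℤ)) P

/-- the box `M` is admissible with exponent `A`: each side `M l` is at most `M l' ^ A` for some variable `l'` of each of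
the polynomials `P j` and `P i - P j`, `i ≠ j` -/
def Adm {k n : ℕ} (P : Fin n → MvPolynomial (Fin k) ℤ) (A : ℕ) (M : Fin k → ℕ) : Prop :=
  ∀ l, (∀ j, ∃ l' ∈ (P j).vars, M l ≤ M l' ^ A) ∧ ∀ i j, i ≠ j → ∃ l' ∈ (P i - P j).vars, M l ≤ M l' ^ A

theorem result {Y : Type u} [MeasurableSpace Y] [StandardBorelSpace Y] (μ : Measure Y) [IsProbabilityMeasure μ]
    (S : Y ≃ᵐ Y) (hS : MeasurePreserving S μ μ) (hap : ∀ᵐ y ∂μ, ∀ n : ℕ, 0 < n → S^[n] y ≠ y) :
    ∃ ξ : Y → ℕ, Measurable ξ ∧ ∀ (K : Type v) [Group K] [MeasurableSpace K] [MeasurableMul₂ K] [MeasurableInv K]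
      (ρ : Measure K) [IsProbabilityMeasure ρ] [ρ.IsMulLeftInvariant] [ρ.IsMulRightInvariant] (φ : Y → K),
      Measurable φ →
      -- the maps preserve the measure and the translations commute with the skew product
      (∀ (d : ℕ) (κ : Fin d → K) (θ : ℕ → K) (i : Fin (d + 1)),
        MeasurePreserving (maps S.toEquiv (fun y => φ y * θ (ξ y)) κ i) (μ.prod ρ) (μ.prod ρ) ∧
        Commute (maps S.toEquiv (fun y => φ y * θ (ξ y)) κ 0) (maps S.toEquiv (fun y => φ y * θ (ξ y)) κ i)) ∧
      -- the averages along the polynomials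
      (∀ (k d n : ℕ), 0 < k → ∀ (κ : Fin d → K) (P : Fin (d + 1) → Fin n → MvPolynomial (Fin k) ℤ),
        (∀ j, (P 0 j).vars.Nonempty) → (∀ i j, i ≠ j → (P 0 i - P 0 j).vars.Nonempty) →
        ∀ f : Fin n → Y × K → ℂ, (∀ j, Measurable (f j)) → (∃ C, ∀ j z, ‖f j z‖ ≤ C) →
        ∀ᵐ θ ∂(Measure.infinitePi (fun _ : ℕ => ρ)), ∀ᵐ z ∂(μ.prod ρ),
          -- admissible boxes
          (∀ A : ℕ, Tendsto (fun M : Fin k → ℕ =>
            avg (fun m => ∏ j, f j ((List.ofFn fun i => maps S.toEquiv (fun y => φ y * θ (ξ y)) κ i ^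
              ev (P i j) m).prod z)) M -
            avg (fun m => ∏ j, ∫ x, f j (((S.toEquiv : Equiv.Perm Y) ^ ev (P 0 j) m) z.1, x) ∂ρ) M)
            (atTop ⊓ 𝓟 {M | Adm (P 0) A M}) (𝓝 0)) ∧
          -- unrestricted boxes
          ((∀ j l, l ∈ (P 0 j).vars) → (∀ i j, i ≠ j → ∀ l, l ∈ (P 0 i - P 0 j).vars) →
            Tendsto (fun M : Fin k → ℕ =>
              avg (fun m => ∏ j, f j ((List.ofFn fun i => maps S.toEquiv (fun y => φ y * θ (ξ y)) κ i ^
                ev (P i j) m).prod z)) M -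
              avg (fun m => ∏ j, ∫ x, f j (((S.toEquiv : Equiv.Perm Y) ^ ev (P 0 j) m) z.1, x) ∂ρ) M) atTop (𝓝 0) ∧
            ((∃ L : ℂ, Tendsto (fun M : Fin k → ℕ =>
              avg (fun m => ∏ j, f j ((List.ofFn fun i => maps S.toEquiv (fun y => φ y * θ (ξ y)) κ i ^
                ev (P i j) m).prod z)) M) atTop (𝓝 L)) ↔
             ∃ L : ℂ, Tendsto (fun M : Fin k → ℕ =>
              avg (fun m => ∏ j, ∫ x, f j (((S.toEquiv : Equiv.Perm Y) ^ ev (P 0 j) m) z.1, x) ∂ρ) M) atTop (𝓝 L)))) ∧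
      -- the same for families of functions
      (∀ (k n : ℕ), 0 < k → ∀ (P : Fin n → MvPolynomial (Fin k) ℤ),
        (∀ j, (P j).vars.Nonempty) → (∀ i j, i ≠ j → (P i - P j).vars.Nonempty) →
        ∀ F : Fin n → (Fin k → ℕ) → Y × K → ℂ, (∀ j m, Measurable (F j m)) → (∃ C, ∀ j m z, ‖F j m z‖ ≤ C) →
        ∀ᵐ θ ∂(Measure.infinitePi (fun _ : ℕ => ρ)), ∀ᵐ z ∂(μ.prod ρ), ∀ A : ℕ, Tendsto (fun M : Fin k → ℕ =>
          avg (fun m => ∏ j, F j m ((skew S.toEquiv (fun y => φ y * θ (ξ y)) ^ ev (P j) m) z)) M -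
          avg (fun m => ∏ j, ∫ x, F j m (((S.toEquiv : Equiv.Perm Y) ^ ev (P j) m) z.1, x) ∂ρ) M)
          (atTop ⊓ 𝓟 {M | Adm P A M}) (𝓝 0)) := by
  classical
  obtain ⟨ξ, hξ, hfr⟩ := Pool.Agent.R205.PC.exists_labels μ S hS hap Pool.Agent.R205.PC.Lk Pool.Agent.R205.PC.Lk_mono
  refine ⟨ξ, hξ, ?_⟩
  intro K _ _ _ _ ρ _ _ _ φ hφ
  have hfr' : ∀ᵐ y ∂μ, Pool.Agent.R205.PC.Fresh S ξ y := hfr
  have hfr2 := Pool.Agent.R205.PC.fresh2_ae μ S hS ξ hfr'
  have hSz : ∀ p : ℤ, Measurable ((S.toEquiv : Equiv.Perm Y) ^ p) := by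
    intro p
    induction p using Int.induction_on with
    | zero => exact measurable_id
    | succ n ih =>
      rw [zpow_add, zpow_one]
      exact ih.comp S.measurable
    | pred n ih =>
      rw [sub_eq_add_neg, zpow_add, zpow_neg_one]
      exact ih.comp S.symm.measurable
  have hseq : ∀ (k n : ℕ), 0 < k → ∀ (P : Fin n → MvPolynomial (Fin k) ℤ),
        (∀ j, (P j).vars.Nonempty) → (∀ i j, i ≠ j → (P i - P j).vars.Nonempty) →
        ∀ F : Fin n → (Fin k → ℕ) → Y × K → ℂ, (∀ j m, Measurable (F j m)) → (∃ C, ∀ j m z, ‖F j m z‖ ≤ C) →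
        ∀ᵐ θ ∂(Measure.infinitePi (fun _ : ℕ => ρ)), ∀ᵐ z ∂(μ.prod ρ), ∀ A : ℕ, Tendsto (fun M : Fin k → ℕ =>
          avg (fun m => ∏ j, F j m ((skew S.toEquiv (fun y => φ y * θ (ξ y)) ^ ev (P j) m) z)) M -
          avg (fun m => ∏ j, ∫ x, F j m (((S.toEquiv : Equiv.Perm Y) ^ ev (P j) m) z.1, x) ∂ρ) M)
          (atTop ⊓ 𝓟 {M | Adm P A M}) (𝓝 0) := by
    intro k n hk P hP hP' F hF hFb
    have h1 : ∀ᵐ θ ∂(Measure.infinitePi (fun _ : ℕ => ρ)), ∀ A : ℕ, ∀ᵐ z ∂(μ.prod ρ),
      Tendsto (fun M => Pool.Agent.R205.PC.dq ρ (S.toEquiv : Equiv.Perm Y) (Pool.Agent.R205.PC.cc φ ξ θ)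
        (fun j (m : Fin k → ℕ) => MvPolynomial.eval (fun l => ((m l : ℕ) : ℤ)) (P j)) F
        (∏ l, (M l : ℝ)) (Pool.Agent.R205.PC.box M) z) (atTop ⊓ 𝓟 {M | Pool.Agent.R205.PC.Adm P A M}) (𝓝 0) :=
      ae_all_iff.2 fun A => Pool.Agent.R205.PC.boxes_gen ρ μ S.toEquiv hSz φ hφ ξ hξ hfr2 hk P hP hP' A F hF hFb
    filter_upwards [h1] with θ hθ
    filter_upwards [ae_all_iff.2 hθ] with z hz A
    refine (hz A).congr fun M => ?_
    unfold avg Pool.Agent.R205.PC.dq
    rw [← mul_sub, ← Finset.sum_sub_distrib]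
    push_cast
    rfl
  have hmain : ∀ (k d n : ℕ), 0 < k → ∀ (κ : Fin d → K) (P : Fin (d + 1) → Fin n → MvPolynomial (Fin k) ℤ),
        (∀ j, (P 0 j).vars.Nonempty) → (∀ i j, i ≠ j → (P 0 i - P 0 j).vars.Nonempty) →
        ∀ f : Fin n → Y × K → ℂ, (∀ j, Measurable (f j)) → (∃ C, ∀ j z, ‖f j z‖ ≤ C) →
        ∀ᵐ θ ∂(Measure.infinitePi (fun _ : ℕ => ρ)), ∀ᵐ z ∂(μ.prod ρ),
          (∀ A : ℕ, Tendsto (fun M : Fin k → ℕ =>
            avg (fun m => ∏ j, f j ((List.ofFn fun i => maps S.toEquiv (fun y => φ y * θ (ξ y)) κ i ^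
              ev (P i j) m).prod z)) M -
            avg (fun m => ∏ j, ∫ x, f j (((S.toEquiv : Equiv.Perm Y) ^ ev (P 0 j) m) z.1, x) ∂ρ) M)
            (atTop ⊓ 𝓟 {M | Adm (P 0) A M}) (𝓝 0)) := by
    intro k d n hk κ P hP hP' f hf hfb
    obtain ⟨C, hC⟩ := hfb
    choose κ' hκ' using fun (j : Fin n) (m : Fin k → ℕ) =>
      Pool.Agent.R205.PC.mps_prod (S.toEquiv : Equiv.Perm Y) κ (fun i => ev (P i j) m)
    have h1 := hseq k n hk (fun j => P 0 j) hP hP' (fun j m z => f j (z.1, z.2 * κ' j m))
      (fun j m => (hf j).comp (measurable_fst.prodMk (measurable_snd.mul measurable_const))) ⟨C, fun j t z => hC j _⟩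
    filter_upwards [h1] with θ hθ
    filter_upwards [hθ] with z hz A
    refine (hz A).congr fun N => ?_
    congr 1
    · congr 1
      funext m
      refine Finset.prod_congr rfl fun j _ => ?_
      have h2 := hκ' j m (fun y => φ y * θ (ξ y)) z
      change f j (((Pool.Agent.R205.PC.skp S.toEquiv (fun y => φ y * θ (ξ y)) ^ ev (P 0 j) m) z).1,
        ((Pool.Agent.R205.PC.skp S.toEquiv (fun y => φ y * θ (ξ y)) ^ ev (P 0 j) m) z).2 * κ' j m) = _
      rw [← h2]
      rfl
    · congr 1
      funext m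
      refine Finset.prod_congr rfl fun j _ => ?_
      exact congrFun (Pool.Agent.R205.PC.fm_right ρ (f j) (κ' j m)) _
  refine ⟨?_, ?_, hseq⟩
  · intro d κ θ i
    have hc : Measurable (fun y => φ y * θ (ξ y)) := hφ.mul ((measurable_of_countable θ).comp hξ)
    refine Fin.cases ?_ (fun i => ?_) i
    · exact ⟨Pool.Agent.R205.PC.mp_skp ρ μ S.toEquiv hS _ hc, Commute.refl _⟩
    · refine ⟨Pool.Agent.R205.PC.mp_rgt ρ μ (κ i), ?_⟩
      refine Equiv.ext fun z => ?_
      change (S z.1, (φ z.1 * θ (ξ z.1)) * (z.2 * κ i)) = (S z.1, ((φ z.1 * θ (ξ z.1)) * z.2) * κ i)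
      rw [mul_assoc, mul_assoc, mul_assoc]
  · intro k d n hk κ P hP hP' f hf hfb
    filter_upwards [hmain k d n hk κ P hP hP' f hf hfb] with θ hθ
    filter_upwards [hθ] with z hz
    refine ⟨hz, fun hv hv' => ?_⟩
    have huniv : {M : Fin k → ℕ | Adm (P 0) 1 M} = Set.univ := by
      rw [Set.eq_univ_iff_forall]
      intro M l
      exact ⟨fun j => ⟨l, hv j l, by rw [pow_one]⟩, fun i j hij => ⟨l, hv' i j hij l, by rw [pow_one]⟩⟩
    have h1 := hz 1
    rw [huniv, principal_univ, inf_top_eq] at h1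
    refine ⟨h1, ?_, ?_⟩
    · rintro ⟨L, hL⟩
      refine ⟨L, ?_⟩
      have h3 := hL.sub h1
      rw [sub_zero] at h3
      exact h3.congr fun N => by ring
    · rintro ⟨L, hL⟩
      refine ⟨L, ?_⟩
      have h3 := h1.add hL
      rw [zero_add] at h3
      exact h3.congr fun N => by ring

end Pool.Agent.Results.MP_f720ae_an.AlmostEveryCocycle
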