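import Pool.Agent.R497.TB.Main
import Pool.Agent.R497.TB.Core
import Pool.Agent.R497.TB.Enum
import Pool.Agent.R497.TD.PINC
import Pool.Agent.R746.TDKAP
import Pool.Agent.R711.TDOSC
import Pool.Agent.R711.TDDBD
import Pool.Agent.R724.TD.PTW
import Pool.Agent.R258.TDJBD
import Pool.Agent.R574.TDAPX
import Pool.Agent.R136.TBBGR
import Pool.Agent.R157.TBBSM
import Pool.Agent.R159.TBAPXU
import Pool.Agent.R261.TBBCORER
import Pool.Agent.R408.TBBCT2
import Pool.Agent.R451.TBBWG
import Pool.Agent.R577.TBBCT1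
import Pool.Agent.R606.TBBGC
import Pool.Agent.R712.TBBD
import Pool.Agent.R718.TBBBAD
import Pool.Agent.R725.TBBPROD
import Pool.Agent.R744.TBBFG
import Pool.Agent.R780.TBBTOP
import Pool.Agent.R790.TBBCTRL
import Pool.Agent.Y48.MC.Flwb

set_option autoImplicit false

/-!
# Arbitrary flows at one generic time, unrestricted boxes, distinct degrees

Let `τ_1, ..., τ_r` and `σ` be measurable measure preserving flows on a probability space `(X, μ)`, with NO relation
between them: they need not commute, nor generate a nilpotent group; `f_j`, `g` in `L^∞`; `W_m`, `m ∈ ℕ^k`, any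
uniformly bounded measurable functions (weights). Let `p_j(m) = p_{j,1}(m_1) + ... + p_{j,k}(m_k)`, where the real
polynomials `p_{j,1}, ..., p_{j,k}` of one variable all have the same degree `d_j ≥ 1`, with leading coefficients of
any signs (for example `m_1^2 - m_2^2`), and let `q` be of the same kind, of degree `e`. Averages over the boxes
`[1, M_1] × ... × [1, M_k]`, limits as `min M_l → ∞`, no restriction on the shape of the boxes.

1. Decoupling. If all `d_j < e`, then for almost every real `a`, for almost every `x`, the averages of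
   `W_m(x) ∏ f_j(τ_j(a p_j(m)) x) (g(σ(a q(m)) x) - E(g|σ)(x))` tend to `0`.
2. If the degrees `d_j` are distinct, then for almost every real `a`, for almost every `x`, the averages of
   `W_m(x) (∏ f_j(τ_j(a p_j(m)) x) - ∏ E(f_j|τ_j)(x))` tend to `0`.
3. In particular (`W = 1`) the averages of `∏ f_j(τ_j(a p_j(m)) x)` converge for almost every `x` to
   `∏ E(f_j|τ_j)(x)`. For integer `p_j` and the maps `T_j = τ_j(a)` these are the averages of the problem for
   `∏ f_j(T_j^(p_j(m)) x)`.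

Proof. By countably many exceptional sets it is enough to treat boxes whose sides are powers `(t_l + 1)^q`,
`q = 8(k+1)`, with the longest side in the direction `i`, without the points with `m_i ≤ M_i/(j+1)`. The number of
such boxes with `t_i = T` is `(T+1)^(k-1)`. The mean square over `a ∈ [1, 2]` and `x` is at most `C T^(-k-1)`: as in
the case `k = 1` (`MP_4d8f14_an.DistinctDegrees`) the coefficients, which vary slowly in `a`, are removed by the
Cauchy-Schwarz inequality, and then blocks of length `(T+1)^(4(k+1))` in the direction `i` are used; for pairs of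
points with other coordinates arbitrary, it is enough to count the pairs for which the values of `q` are close,
and this only needs the derivative in the direction `i`. For functions of lower degree which are not smooth along
the flow, one has a bound of the averages over boxes by the mean value, with the same kind of argument.
-/

namespace Pool.Agent.Results.MP_f720ae_an.DistinctDegreesBoxes

open MeasureTheory Filter Finset

universe u

/-- a measurable measure preserving flow -/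
structure IsFlow {X : Type u} [MeasurableSpace X] (μ : Measure X) (τ : ℝ → X → X) : Prop where
  meas : Measurable (fun p : ℝ × X => τ p.1 p.2)
  zero : ∀ x, τ 0 x = x
  add : ∀ s t x, τ (s + t) x = τ s (τ t x)
  mp : ∀ t, MeasurePreserving (τ t) μ μ

/-- `f` is in `L^∞` -/
def EssBdd {X : Type u} [MeasurableSpace X] (μ : Measure X) (f : X → ℂ) : Prop :=
  AEStronglyMeasurable f μ ∧ ∃ C : ℝ, ∀ᵐ x ∂μ, ‖f x‖ ≤ C

/-- uniformly bounded measurable weights -/
def Weights {X ι : Type*} [MeasurableSpace X] (μ : Measure X) (W : ι → X → ℂ) : Prop :=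
  (∀ m, AEStronglyMeasurable (W m) μ) ∧ ∃ C : ℝ, ∀ m, ∀ᵐ x ∂μ, ‖W m x‖ ≤ C

/-- the conditional expectation on the sets invariant under the flow -/
noncomputable def inv {X : Type u} [MeasurableSpace X] (μ : Measure X) (τ : ℝ → X → X) (f : X → ℂ) : X → ℂ :=
  μ[f | ⨅ t : ℝ, MeasurableSpace.invariants (τ t)]

/-- the average over the box `[1, M_1] × ... × [1, M_k]` -/
noncomputable def avg {k : ℕ} (M : Fin k → ℕ) (h : (Fin k → ℕ) → ℂ) : ℂ :=
  (1 / ((∏ l, M l : ℕ) : ℂ)) * ∑ m ∈ Fintype.piFinset (fun l => Icc 1 (M l)), h m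

/-- the value at `m` of the polynomial `p_1(m_1) + ... + p_k(m_k)` -/
noncomputable def ev {k : ℕ} (p : Fin k → Polynomial ℝ) (m : Fin k → ℕ) : ℝ := ∑ l, (p l).eval (m l : ℝ)

/-- all `p_l` have the same degree `d ≥ 1` -/
def Deg {k : ℕ} (p : Fin k → Polynomial ℝ) (d : ℕ) : Prop := 0 < d ∧ ∀ l, (p l).natDegree = d

theorem result (X : Type u) [MeasurableSpace X] (μ : Measure X) [IsProbabilityMeasure μ] (k r : ℕ) (hk : 0 < k)
    (τ : Fin r → ℝ → X → X) (f : Fin r → X → ℂ) (p : Fin r → Fin k → Polynomial ℝ) (d : Fin r → ℕ)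
    (hτ : ∀ j, IsFlow μ (τ j)) (hf : ∀ j, EssBdd μ (f j)) (hp : ∀ j, Deg (p j) (d j)) :
    (∀ (σ : ℝ → X → X) (g : X → ℂ) (q : Fin k → Polynomial ℝ) (e : ℕ) (W : (Fin k → ℕ) → X → ℂ), IsFlow μ σ →
      EssBdd μ g → Deg q e → (∀ j, d j < e) → Weights μ W → ∀ᵐ a : ℝ, ∀ᵐ x ∂μ,
        Tendsto (fun M : Fin k → ℕ => avg M fun m =>
          (W m x * ∏ j, f j (τ j (a * ev (p j) m) x)) * (g (σ (a * ev q m) x) - inv μ σ g x)) atTop (nhds 0)) ∧
    (Function.Injective d →
      (∀ W : (Fin k → ℕ) → X → ℂ, Weights μ W → ∀ᵐ a : ℝ, ∀ᵐ x ∂μ,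
        Tendsto (fun M : Fin k → ℕ => avg M fun m =>
          W m x * (∏ j, f j (τ j (a * ev (p j) m) x) - ∏ j, inv μ (τ j) (f j) x)) atTop (nhds 0)) ∧
      ∀ᵐ a : ℝ, ∀ᵐ x ∂μ,
        Tendsto (fun M : Fin k → ℕ => avg M fun m => ∏ j, f j (τ j (a * ev (p j) m) x)) atTop
          (nhds (∏ j, inv μ (τ j) (f j) x))) := by
  have hτ' : ∀ j, Pool.Agent.Y957.MC.IsFlow μ (τ j) := fun j => ⟨(hτ j).meas, (hτ j).zero, (hτ j).add, (hτ j).mp⟩
  have hp' : ∀ j, Pool.Agent.R497.TB.SD (p j) (d j) := hp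
  have hDBD : Pool.Agent.R497.TD.S_DBD.{u} := Pool.Agent.R711.TDDBD.t_DBD Pool.Agent.R746.t_KAP
  have hJBD : Pool.Agent.R497.TD.S_JBD.{u} := Pool.Agent.R258.TDJBD.t_JBD Pool.Agent.R724.TD.t_PTW
  have hENUM : Pool.Agent.R497.TB.S_ENUM := Pool.Agent.R497.TB.t_ENUM
  have hBBAD : Pool.Agent.R497.TB.S_BBAD := Pool.Agent.R718.TB.t_BBAD
  have hBGC : Pool.Agent.R497.TB.S_BGC.{u} := Pool.Agent.R606.TB.t_BGC
  have hBGR : Pool.Agent.R497.TB.S_BGR := Pool.Agent.R136.TB.t_BGR
  have hBD : Pool.Agent.R497.TB.S_BD.{u} := Pool.Agent.R712.TB.t_BD Pool.Agent.R711.TDOSC.t_OSC hDBD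
    Pool.Agent.R497.TD.PINC784.t_PINC hBBAD
  have hCORER : Pool.Agent.R497.TB.S_BCORER.{u} := Pool.Agent.R261.TB.t_BCORER
    (Pool.Agent.R497.TB.t_BCORE hENUM hJBD hBD hBGC hBGR)
  have hCTRL : Pool.Agent.R497.TB.S_BCTRL.{u} := Pool.Agent.R790.TB.t_BCTRL
    (Pool.Agent.R577.TB.t_BCT1 hENUM hBBAD hBGC Pool.Agent.R157.TB.t_BSM) Pool.Agent.R408.TB.t_BCT2
    Pool.Agent.Y48.MC.flwb
  have hTOP : Pool.Agent.R497.TB.S_BTOP.{u} := Pool.Agent.R780.TB.t_BTOP hCORER hCTRL Pool.Agent.R159.TB.t_APXU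
  have hFG : Pool.Agent.R497.TB.S_BFG.{u} := Pool.Agent.R744.TB.t_BFG hCTRL Pool.Agent.R574.TDAPX.t_APX
  have hPROD : Pool.Agent.R497.TB.S_BPROD.{u} := Pool.Agent.R725.TB.t_BPROD
  have hWG : Pool.Agent.R497.TB.S_BWG.{u} := Pool.Agent.R451.TB.t_BWG
  have hFIN : Pool.Agent.R497.TB.S_BFIN.{u} := Pool.Agent.R725.TB.t_BFIN hTOP hFG hPROD hWG
  refine ⟨fun σ g q e W hσ hg hq hlt hW => ?_, fun hinj => ?_⟩
  · exact Pool.Agent.R497.TB.bdec hTOP hFG hPROD hWG hk hτ' (fun j => (hf j).1) (fun j => (hf j).2) hp'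
      ⟨hσ.meas, hσ.zero, hσ.add, hσ.mp⟩ hg.1 hg.2 hq hlt hW.1 hW.2
  · have h2 : ∀ W : (Fin k → ℕ) → X → ℂ, Weights μ W → ∀ᵐ a : ℝ, ∀ᵐ x ∂μ,
        Tendsto (fun M : Fin k → ℕ => avg M fun m =>
          W m x * (∏ j, f j (τ j (a * ev (p j) m) x) - ∏ j, inv μ (τ j) (f j) x)) atTop (nhds 0) := by
      intro W hW
      have h3 := hFIN X μ k r τ f p d W hk hτ' (fun j => (hf j).1) (fun j => (hf j).2) hp' hinj hW.1 hW.2
      filter_upwards [h3] with a ha
      filter_upwards [ha] with x hx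
      refine hx.congr fun M => ?_
      exact Pool.Agent.R497.TB.bavg_sub_const M _ _ _
    refine ⟨h2, ?_⟩
    filter_upwards [h2 (fun _ _ => 1) ⟨fun _ => aestronglyMeasurable_const, 1, fun _ => ae_of_all _ fun _ => by simp⟩]
      with a ha
    filter_upwards [ha] with x hx
    have h3 := hx.add_const (∏ j, inv μ (τ j) (f j) x)
    rw [zero_add] at h3
    refine h3.congr' ?_
    filter_upwards [eventually_ge_atTop (fun _ : Fin k => 1)] with M hM
    have h4 := Pool.Agent.R497.TB.bavg_sub_const M (fun m => ∏ j, f j (τ j (a * ev (p j) m) x)) (fun _ => 1)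
      (∏ j, inv μ (τ j) (f j) x)
    rw [Pool.Agent.R497.TB.bavg_one (fun l => hM l), mul_one] at h4
    simp only [one_mul] at h4
    simp only [one_mul]
    have h5 : avg M (fun m => ∏ j, f j (τ j (a * ev (p j) m) x) - ∏ j, inv μ (τ j) (f j) x) =
        avg M (fun m => ∏ j, f j (τ j (a * ev (p j) m) x)) - ∏ j, inv μ (τ j) (f j) x := h4.symm
    rw [h5]
    ring

end Pool.Agent.Results.MP_f720ae_an.DistinctDegreesBoxes
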