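import Pool.Agent.R497.Er.BoxW

set_option autoImplicit false

/-!
# Unrestricted box averages: a generic factor decouples from everything else

Let `τ` be a measurable measure preserving flow on a probability space `(X, μ)`, `h` in `L^∞` and
`L(m) = c_1 m_1 + ... + c_k m_k` a real linear form with all coefficients nonzero, `k ≥ 1`.

1. For almost every `x`: for EVERY bounded array of weights `B(m)` and almost every real `a`
   `(1/|M|) ∑_{m ∈ [M]} B(m) (h(τ_{a L(m)} x) - E(h|τ)(x)) → 0` as `min M_i → ∞`, with no restriction on the shape of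
   the boxes `[M] = [1, M_1] × ... × [1, M_k]`. The null set of exceptional `x` does not depend on `B`.
2. For ALL families of measure preserving maps `S_j(m)`, `j ≤ n`, `m ∈ ℕ^k` (for example those of the problem, for any
   maps, any integer polynomials, nilpotent or not) and `f_j ∈ L^∞`, for almost every real `a`, almost everywhere
   `A_M(f_1, ..., f_n, h) - E(h|τ) A_M(f_1, ..., f_n) → 0`, where `A_M(f_1, ..., f_n, h)` are the averages of
   `∏ f_j(S_j(m) x) h(τ_{a L(m)} x)` over the box. The same with any uniformly bounded measurable weights `W_m(x)`.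
3. Hence, if the averages `A_M(f_1, ..., f_n)` converge almost everywhere, then so do the averages
   `A_M(f_1, ..., f_n, h)` of one more function, for almost every `a`.

`τ` need not commute with the `S_j(m)`. When some coefficients of `L` vanish, 1 is only clear for the boxes whose
longest side belongs to a variable which occurs in `L`.

Proof (`Pool.Agent.Y957.MC`, theorem `flwc_all`): Parseval in the multiplicative Fourier transform in `a` over windows
of `log a`, Halász-Montgomery and van der Corput's method for Dirichlet polynomials `∑ B(m) (c_i m_i + b)^(it)` in the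
variable of the longest side, with bounds uniform in `b`, and second moments of averages of nonnegative functions.
-/

namespace Pool.Agent.Results.MP_f720ae_an.GenericFactor

open MeasureTheory Filter Finset

universe u

/-- a measurable measure preserving flow -/
structure IsFlow {X : Type u} [MeasurableSpace X] (μ : Measure X) (τ : ℝ → X → X) : Prop where
  meas : Measurable (fun p : ℝ × X => τ p.1 p.2)
  zero : ∀ x, τ 0 x = x
  add : ∀ s t x, τ (s + t) x = τ s (τ t x)
  mp : ∀ t, MeasurePreserving (τ t) μ μ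

/-- `f` is in `L^∞` -/
def EssBdd {X : Type u} [MeasurableSpace X] (μ : Measure X) (f : X → ℂ) : Prop :=
  AEStronglyMeasurable f μ ∧ ∃ C : ℝ, ∀ᵐ x ∂μ, ‖f x‖ ≤ C

/-- the average of `w` over the box `[1, M_1] × ... × [1, M_k]` -/
noncomputable def avg {k : ℕ} (M : Fin k → ℕ) (w : (Fin k → ℕ) → ℂ) : ℂ :=
  (1 / ((∏ i, M i : ℕ) : ℂ)) * ∑ m ∈ Fintype.piFinset (fun i => Icc 1 (M i)), w m

theorem result (X : Type u) [MeasurableSpace X] (μ : Measure X) [IsProbabilityMeasure μ] (τ : ℝ → X → X)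
    (hτ : IsFlow μ τ) (h : X → ℂ) (hh : EssBdd μ h) (k : ℕ) (hk : 0 < k) (c : Fin k → ℝ) (hc : ∀ i, c i ≠ 0) :
    (∀ᵐ x ∂μ, ∀ B : (Fin k → ℕ) → ℂ, (∃ C : ℝ, ∀ m, ‖B m‖ ≤ C) → ∀ᵐ a : ℝ,
      Tendsto (fun M => avg M fun m => B m * (h (τ (a * ∑ i, c i * (m i : ℝ)) x) -
        (μ[h | ⨅ t : ℝ, MeasurableSpace.invariants (τ t)]) x)) atTop (nhds 0)) ∧
    (∀ W : (Fin k → ℕ) → X → ℂ, (∀ m, AEStronglyMeasurable (W m) μ) → (∃ C : ℝ, ∀ m, ∀ᵐ x ∂μ, ‖W m x‖ ≤ C) →
      ∀ᵐ a : ℝ, ∀ᵐ x ∂μ, Tendsto (fun M => avg M (fun m => W m x * h (τ (a * ∑ i, c i * (m i : ℝ)) x)) -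
        (μ[h | ⨅ t : ℝ, MeasurableSpace.invariants (τ t)]) x * avg M (fun m => W m x)) atTop (nhds 0)) ∧
    (∀ (n : ℕ) (S : Fin n → (Fin k → ℕ) → X → X) (f : Fin n → X → ℂ), (∀ j m, MeasurePreserving (S j m) μ μ) →
      (∀ j, EssBdd μ (f j)) →
      (∀ᵐ a : ℝ, ∀ᵐ x ∂μ,
        Tendsto (fun M => avg M (fun m => (∏ j, f j (S j m x)) * h (τ (a * ∑ i, c i * (m i : ℝ)) x)) -
          (μ[h | ⨅ t : ℝ, MeasurableSpace.invariants (τ t)]) x * avg M (fun m => ∏ j, f j (S j m x))) atTop
          (nhds 0)) ∧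
      ((∀ᵐ x ∂μ, ∃ L : ℂ, Tendsto (fun M => avg M fun m => ∏ j, f j (S j m x)) atTop (nhds L)) →
        ∀ᵐ a : ℝ, ∀ᵐ x ∂μ, ∃ L : ℂ,
          Tendsto (fun M => avg M fun m => (∏ j, f j (S j m x)) * h (τ (a * ∑ i, c i * (m i : ℝ)) x)) atTop
            (nhds L))) := by
  have hτ' : Pool.Agent.Y957.MC.IsFlow μ τ := ⟨hτ.meas, hτ.zero, hτ.add, hτ.mp⟩
  have hW : ∀ W : (Fin k → ℕ) → X → ℂ, (∀ m, AEStronglyMeasurable (W m) μ) →
      (∃ C : ℝ, ∀ m, ∀ᵐ x ∂μ, ‖W m x‖ ≤ C) →
      ∀ᵐ a : ℝ, ∀ᵐ x ∂μ, Tendsto (fun M => avg M (fun m => W m x * h (τ (a * ∑ i, c i * (m i : ℝ)) x)) -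
        (μ[h | ⨅ t : ℝ, MeasurableSpace.invariants (τ t)]) x * avg M (fun m => W m x)) atTop (nhds 0) := by
    intro W hW hWb
    filter_upwards [Pool.Agent.R497.Er.box_weights hk hc hτ' hh.1 hh.2 hW hWb] with a ha
    filter_upwards [ha] with x hx
    refine hx.congr fun M => ?_
    unfold avg Pool.Agent.Y957.MC.bavg Pool.Agent.Y957.MC.box Pool.Agent.Y957.MC.lin
    simp only [mul_sub]
    rw [sum_sub_distrib, mul_sub, ← sum_mul]
    show _ - (1 / _) * (_ * (μ[h | ⨅ t : ℝ, MeasurableSpace.invariants (τ t)]) x) = _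
    ring
  refine ⟨?_, hW, ?_⟩
  · filter_upwards [Pool.Agent.R497.Er.box_Linf hk hc hτ' hh.1 hh.2] with x hx B hB
    obtain ⟨C, hC⟩ := hB
    have hC0 : 0 ≤ C := (norm_nonneg _).trans (hC fun _ => 0)
    obtain ⟨D, hD⟩ : ∃ D : ℝ, D = C + 1 := ⟨_, rfl⟩
    have hD0 : 0 < D := by rw [hD]; positivity
    have h2 := hx (fun n => (1 / (D : ℂ)) * B n) (fun n => by
      rw [norm_mul, norm_div, norm_one, Complex.norm_real, Real.norm_eq_abs, abs_of_pos hD0, one_div,
        inv_mul_le_iff₀ hD0, mul_one]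
      have := hC n
      linarith)
    filter_upwards [h2] with a ha
    have h3 := ha.const_mul (D : ℂ)
    rw [mul_zero] at h3
    have hDc : (D : ℂ) ≠ 0 := by exact_mod_cast hD0.ne'
    refine h3.congr fun M => ?_
    rw [← Pool.Agent.R497.Er.bavg_mul]
    unfold avg Pool.Agent.Y957.MC.bavg Pool.Agent.Y957.MC.box Pool.Agent.Y957.MC.lin
    congr 1
    refine sum_congr rfl fun m _ => ?_
    show (D : ℂ) * (1 / (D : ℂ) * B m * (_ - (μ[h | ⨅ t : ℝ, MeasurableSpace.invariants (τ t)]) x)) = _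
    field_simp
  · intro n S f hS hf
    choose C hC using fun j => (hf j).2
    have h1 := hW (fun m x => ∏ j, f j (S j m x))
      (fun m => by
        have := Finset.aestronglyMeasurable_prod (Finset.univ : Finset (Fin n))
          (f := fun j x => f j (S j m x)) (μ := μ) (fun j _ => (hf j).1.comp_measurePreserving (hS j m))
        simpa only [Finset.prod_fn] using this)
      ⟨∏ j, |C j|, fun m => by
        have : ∀ᵐ x ∂μ, ∀ j, ‖f j (S j m x)‖ ≤ C j := by
          rw [ae_all_iff]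
          exact fun j => (hS j m).quasiMeasurePreserving.ae (hC j)
        filter_upwards [this] with x hx
        rw [norm_prod]
        exact Finset.prod_le_prod (fun j _ => norm_nonneg _) fun j _ => (hx j).trans (le_abs_self _)⟩
    refine ⟨h1, fun hL => ?_⟩
    filter_upwards [h1] with a ha
    filter_upwards [ha, hL] with x hx hLx
    obtain ⟨L, hLx⟩ := hLx
    refine ⟨(μ[h | ⨅ t : ℝ, MeasurableSpace.invariants (τ t)]) x * L, ?_⟩
    have h2 := hx.add (hLx.const_mul ((μ[h | ⨅ t : ℝ, MeasurableSpace.invariants (τ t)]) x))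
    rw [zero_add] at h2
    refine h2.congr fun M => ?_
    ring

end Pool.Agent.Results.MP_f720ae_an.GenericFactor
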