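import Pool.Agent.R497.Er.OneForm

set_option autoImplicit false

/-!
# Unrestricted boxes: all factors along one linear form, at almost all times of flows

Let `τ_1, ..., τ_n` be measurable measure preserving flows on a probability space `(X, μ)`, with no relation between
them (they may all be equal, and need not commute or generate a nilpotent group), `s_1, ..., s_n` real speeds and
`f_1, ..., f_n` in `L^∞`. For a linear form `L(m) = c_1 m_1 + ... + c_k m_k` with positive rational coefficients and a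
time `a > 0` let `A_M` be the average of `∏ f_j(τ_j(s_j a L(m)) x)` over the box `[1, M_1] × ... × [1, M_k]`. With
`T_j = τ_j(s_j a)` and integer `c` these are the averages of the problem for `P_{j,j} = L`, `P_{i,j} = 0` otherwise.

1. For almost every `a > 0` and almost every `x`, for ALL `k ≥ 1`, all `c` and all limits `ℓ`: `A_M → ℓ` as
   `min M_i → ∞`, with no restriction on the shape of the boxes, if and only if the continuous averages
   `(1/V) ∫_0^V ∏ f_j(τ_j(s_j v) x) dv`, which depend neither on `a` nor on `k` and `c`, tend to `ℓ`. In particular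
   the unrestricted multi-parameter problem along such forms is the same, point by point, as the one parameter problem
   `k = 1`, and the limits are the same.
2. Zero-one law: either for almost every `a > 0` all these averages converge almost everywhere, or for almost every
   `a > 0` none of them, for any `k` and `c`, converges almost everywhere.

Proof: the averages over a box are means over the other variables of averages over `m_i` along a progression
`{c_i m_i + s}`, where `m_i` is the variable of the longest side. By the theorem `mul_Linf` of `Pool.Agent.Y957.MC` for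
almost all `a` and `x` the averages over ALL residue classes `n ≡ r mod q` are asymptotic to the continuous averages,
which gives uniformity in `s ≤ C M_i`. For the converse the box `(N, M_0, ..., M_0)` with fixed `M_0` is used.
-/

namespace Pool.Agent.Results.MP_f720ae_an.OneLinearForm

open MeasureTheory Filter Finset

universe u

/-- a measurable measure preserving flow -/
structure IsFlow {X : Type u} [MeasurableSpace X] (μ : Measure X) (τ : ℝ → X → X) : Prop where
  meas : Measurable (fun p : ℝ × X => τ p.1 p.2)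
  zero : ∀ x, τ 0 x = x
  add : ∀ s t x, τ (s + t) x = τ s (τ t x)
  mp : ∀ t, MeasurePreserving (τ t) μ μ

/-- `f` is in `L^∞` -/
def EssBdd {X : Type u} [MeasurableSpace X] (μ : Measure X) (f : X → ℂ) : Prop :=
  AEStronglyMeasurable f μ ∧ ∃ C : ℝ, ∀ᵐ x ∂μ, ‖f x‖ ≤ C

/-- the average of `∏ f_j (τ_j (s_j a L(m)) x)`, `L(m) = ∑ c_i m_i`, over the box `[1, M_1] × ... × [1, M_k]` -/
noncomputable def boxAvg {X : Type u} {n : ℕ} (τ : Fin n → ℝ → X → X) (s : Fin n → ℝ) (f : Fin n → X → ℂ)
    (a : ℝ) {k : ℕ} (c : Fin k → ℚ) (x : X) (M : Fin k → ℕ) : ℂ :=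
  (1 / ((∏ i, M i : ℕ) : ℂ)) * ∑ m ∈ Fintype.piFinset (fun i => Icc 1 (M i)),
    ∏ j, f j (τ j (s j * (a * ∑ i, (c i : ℝ) * (m i : ℝ))) x)

/-- the continuous averages -/
noncomputable def contAvg {X : Type u} {n : ℕ} (τ : Fin n → ℝ → X → X) (s : Fin n → ℝ) (f : Fin n → X → ℂ)
    (x : X) (V : ℝ) : ℂ :=
  (1 / (V : ℂ)) * ∫ v in (0 : ℝ)..V, ∏ j, f j (τ j (s j * v) x)

theorem result (X : Type u) [MeasurableSpace X] (μ : Measure X) [IsProbabilityMeasure μ] (n : ℕ)
    (τ : Fin n → ℝ → X → X) (s : Fin n → ℝ) (f : Fin n → X → ℂ) (hτ : ∀ j, IsFlow μ (τ j))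
    (hf : ∀ j, EssBdd μ (f j)) :
    (∀ᵐ a : ℝ, 0 < a → ∀ᵐ x ∂μ, ∀ k : ℕ, 0 < k → ∀ c : Fin k → ℚ, (∀ i, 0 < c i) → ∀ L : ℂ,
      (Tendsto (boxAvg τ s f a c x) atTop (nhds L) ↔ Tendsto (contAvg τ s f x) atTop (nhds L))) ∧
    ((∀ᵐ a : ℝ, 0 < a → ∀ᵐ x ∂μ, ∀ k : ℕ, 0 < k → ∀ c : Fin k → ℚ, (∀ i, 0 < c i) →
        ∃ L : ℂ, Tendsto (boxAvg τ s f a c x) atTop (nhds L)) ∨
      (∀ᵐ a : ℝ, 0 < a → ∀ k : ℕ, 0 < k → ∀ c : Fin k → ℚ, (∀ i, 0 < c i) →
        ¬ ∀ᵐ x ∂μ, ∃ L : ℂ, Tendsto (boxAvg τ s f a c x) atTop (nhds L))) := by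
  have hσ : ∀ j, Pool.Agent.Y957.MC.IsFlow μ (fun t : ℝ => τ j (s j * t)) := fun j =>
    { meas := (hτ j).meas.comp ((measurable_fst.const_mul (s j)).prodMk measurable_snd)
      zero := fun x => by rw [mul_zero]; exact (hτ j).zero x
      add := fun u t x => by rw [mul_add]; exact (hτ j).add _ _ x
      mp := fun t => (hτ j).mp _ }
  have h1 := Pool.Agent.R497.Er.one_form_rat (μ := μ) hσ (fun j => (hf j).1) (fun j => (hf j).2)
  have h2 : ∀ᵐ a : ℝ, 0 < a → ∀ᵐ x ∂μ, ∀ k : ℕ, 0 < k → ∀ c : Fin k → ℚ, (∀ i, 0 < c i) → ∀ L : ℂ,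
      (Tendsto (boxAvg τ s f a c x) atTop (nhds L) ↔ Tendsto (contAvg τ s f x) atTop (nhds L)) := h1
  refine ⟨h2, ?_⟩
  by_cases hP : ∀ᵐ x ∂μ, ∃ L : ℂ, Tendsto (contAvg τ s f x) atTop (nhds L)
  · left
    filter_upwards [h2] with a ha ha0
    filter_upwards [ha ha0, hP] with x hx hL k hk c hc
    obtain ⟨L, hL⟩ := hL
    exact ⟨L, (hx k hk c hc L).2 hL⟩
  · right
    filter_upwards [h2] with a ha ha0 k hk c hc hcon
    apply hP
    filter_upwards [ha ha0, hcon] with x hx hL
    obtain ⟨L, hL⟩ := hL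
    exact ⟨L, (hx k hk c hc L).1 hL⟩

end Pool.Agent.Results.MP_f720ae_an.OneLinearForm
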